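import Mathlib
import Pool.Agent.W207.PR.A0

/-! # PR-DET: a function of exponential decay is determined by its even moments -/

open Filter Topology Set MeasureTheory ProbabilityTheory
open scoped ENNReal NNReal

namespace W125.PR

/-- finite measures with exponential moments are determined by their moments -/
lemma key (ν₁ ν₂ : Measure ℝ) [IsFiniteMeasure ν₁] [IsFiniteMeasure ν₂] (c : ℝ) (hc : 0 < c)
    (h1 : ∀ t, |t| < c → Integrable (fun x => Real.exp (t * x)) ν₁)
    (h2 : ∀ t, |t| < c → Integrable (fun x => Real.exp (t * x)) ν₂)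
    (hm : ∀ n : ℕ, ∫ x, x ^ n ∂ν₁ = ∫ x, x ^ n ∂ν₂) : ν₁ = ν₂ := by
  have hint : ∀ ν : Measure ℝ, (∀ t, |t| < c → Integrable (fun x => Real.exp (t * x)) ν) →
      ∀ s : ℝ, |s| < c → s ∈ interior (integrableExpSet id ν) := by
    intro ν h s hs
    rw [mem_interior]
    refine ⟨Ioo (-c) c, ?_, isOpen_Ioo, ?_⟩
    · intro t ht
      exact h t (abs_lt.mpr ht)
    · exact abs_lt.mp hs
  set S : Set ℂ := {z : ℂ | |z.re| < c} with hS
  have hSpre : IsPreconnected S := by
    have : Convex ℝ S := by
      have h := (convex_Ioo (-c) c).linear_preimage Complex.reLm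
      have e : S = Complex.reLm ⁻¹' (Ioo (-c) c) := by
        ext z
        simp [hS, abs_lt]
      rw [e]
      exact h
    exact this.isPreconnected
  have a1 : AnalyticOnNhd ℂ (complexMGF id ν₁) S := fun z hz =>
    analyticAt_complexMGF (hint ν₁ h1 _ hz)
  have a2 : AnalyticOnNhd ℂ (complexMGF id ν₂) S := fun z hz =>
    analyticAt_complexMGF (hint ν₂ h2 _ hz)
  have h0 : (0 : ℂ) ∈ S := by simp [hS, hc]
  have hder : ∀ n : ℕ, iteratedDeriv n (complexMGF id ν₁) 0 =
      iteratedDeriv n (complexMGF id ν₂) 0 := by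
    intro n
    rw [iteratedDeriv_complexMGF (hint ν₁ h1 _ h0), iteratedDeriv_complexMGF (hint ν₂ h2 _ h0)]
    have e : ∀ ν : Measure ℝ, ν[fun ω : ℝ => ((id ω : ℝ) : ℂ) ^ n * Complex.exp (0 * ((id ω : ℝ) : ℂ))]
        = ((∫ x, x ^ n ∂ν : ℝ) : ℂ) := by
      intro ν
      rw [← integral_complex_ofReal]
      simp
    rw [e, e, hm]
  have p1 := (a1 0 h0).hasFPowerSeriesAt
  have p2 := (a2 0 h0).hasFPowerSeriesAt
  simp only [hder] at p1
  have hev : complexMGF id ν₁ =ᶠ[𝓝 0] complexMGF id ν₂ := by
    filter_upwards [p1.eventually_hasSum_sub, p2.eventually_hasSum_sub] with z q1 q2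
    exact q1.unique q2
  have heq := a1.eqOn_of_preconnected_of_eventuallyEq a2 hSpre h0 hev
  apply Measure.ext_of_charFun
  ext t
  rw [← complexMGF_id_mul_I, ← complexMGF_id_mul_I]
  apply heq
  simp [hS, hc]

/-- the symmetrised measure of a measure -/
noncomputable def sym (μ : Measure ℝ) : Measure ℝ := μ + μ.map (fun x => -x)

lemma sym_finite (μ : Measure ℝ) [IsFiniteMeasure μ] : IsFiniteMeasure (sym μ) := by
  unfold sym
  infer_instance

lemma sym_exp (μ : Measure ℝ) (c : ℝ)
    (h : ∀ t, |t| < c → Integrable (fun x => Real.exp (t * x)) μ) (t : ℝ) (ht : |t| < c) :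
    Integrable (fun x => Real.exp (t * x)) (sym μ) := by
  unfold sym
  refine (h t ht).add_measure ?_
  rw [integrable_map_measure (by fun_prop) (by fun_prop)]
  have := h (-t) (by rwa [abs_neg])
  convert this using 2 with x
  simp

lemma sym_pow (μ : Measure ℝ) (n : ℕ) (h : Integrable (fun x => x ^ n) μ) :
    ∫ x, x ^ n ∂(sym μ) = (1 + (-1) ^ n) * ∫ x, x ^ n ∂μ := by
  unfold sym
  have hm : Integrable (fun x : ℝ => x ^ n) (μ.map (fun x => -x)) := by
    rw [integrable_map_measure (by fun_prop) (by fun_prop)]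
    have : ((fun x : ℝ => x ^ n) ∘ fun x => -x) = fun x => (-1) ^ n * x ^ n := by
      ext x
      simp [neg_pow x n]
    rw [this]
    exact h.const_mul _
  rw [integral_add_measure h hm, integral_map (by fun_prop) (by fun_prop)]
  have : (fun x : ℝ => (-x) ^ n) = fun x => (-1) ^ n * x ^ n := by
    ext x
    rw [neg_pow x n]
  rw [this, integral_const_mul]
  ring

lemma sym_apply (μ : Measure ℝ) (hμ : μ (Iic 0) = 0) (S : Set ℝ) (hS : MeasurableSet S) :
    sym μ (S ∩ Ioi 0) = μ S := by
  unfold sym
  rw [Measure.add_apply, Measure.map_apply (by fun_prop) (hS.inter measurableSet_Ioi)]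
  have h1 : μ ((fun x : ℝ => -x) ⁻¹' (S ∩ Ioi 0)) = 0 := by
    apply measure_mono_null _ hμ
    intro x hx
    have : 0 < -x := hx.2
    simp only [mem_Iic]
    linarith
  rw [h1, add_zero]
  apply measure_inter_conull
  apply measure_mono_null _ hμ
  intro x hx
  by_contra h
  exact hx (by simpa using h)

lemma sym_inj (μ₁ μ₂ : Measure ℝ) (h1 : μ₁ (Iic 0) = 0) (h2 : μ₂ (Iic 0) = 0)
    (h : sym μ₁ = sym μ₂) : μ₁ = μ₂ := by
  ext S hS
  rw [← sym_apply μ₁ h1 S hS, ← sym_apply μ₂ h2 S hS, h]

theorem det : W207.PR.S_DET := by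
  intro f c hc hf hmom
  set μ0 : Measure ℝ := volume.restrict (Ioi 0) with hμ0
  have hfm : AEStronglyMeasurable f μ0 := by
    have h1 : AEStronglyMeasurable (fun u => Real.exp (-(c * u)) * (Real.exp (c * u) * f u)) μ0 :=
      (by fun_prop : Continuous fun u : ℝ => Real.exp (-(c * u))).aestronglyMeasurable.mul
        hf.aestronglyMeasurable
    refine h1.congr (Eventually.of_forall fun u => ?_)
    simp only
    rw [← mul_assoc, ← Real.exp_add]
    simp
  have hpos : ∀ᵐ u ∂μ0, (0 : ℝ) < u := by
    rw [hμ0]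
    exact (ae_restrict_mem measurableSet_Ioi)
  -- integrability of everything needed
  have hexp : ∀ t : ℝ, |t| ≤ c → Integrable (fun u => Real.exp (t * u) * f u) μ0 := by
    intro t ht
    refine Integrable.mono hf ?_ ?_
    · exact (by fun_prop : Continuous fun u : ℝ => Real.exp (t * u)).aestronglyMeasurable.mul hfm
    · filter_upwards [hpos] with u hu
      rw [norm_mul, norm_mul]
      apply mul_le_mul_of_nonneg_right _ (norm_nonneg _)
      rw [Real.norm_eq_abs, Real.norm_eq_abs, Real.abs_exp, Real.abs_exp]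
      apply Real.exp_le_exp.mpr
      exact mul_le_mul_of_nonneg_right ((le_abs_self t).trans ht) hu.le
  have hfi : Integrable f μ0 := by
    have := hexp 0 (by simpa using hc.le)
    simpa using this
  -- the two measures
  have main : ∀ g : ℝ → ℝ, AEStronglyMeasurable g μ0 → (∀ u, |g u| ≤ |f u|) →
      IsFiniteMeasure (μ0.withDensity fun u => ENNReal.ofReal (g u)) ∧
      (∀ t, |t| < c → Integrable (fun x => Real.exp (t * x))
        (μ0.withDensity fun u => ENNReal.ofReal (g u))) ∧
      (μ0.withDensity fun u => ENNReal.ofReal (g u)) (Iic 0) = 0 := by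
    intro g hg hle
    have hgm : AEMeasurable (fun u => ENNReal.ofReal (g u)) μ0 := hg.aemeasurable.ennreal_ofReal
    have hgi : Integrable g μ0 := Integrable.mono hfi hg
      (Eventually.of_forall fun u => by simpa using hle u)
    refine ⟨isFiniteMeasure_withDensity_ofReal hgi.2, ?_, ?_⟩
    · intro t ht
      rw [integrable_withDensity_iff_integrable_smul₀' hgm
        (Eventually.of_forall fun u => ENNReal.ofReal_lt_top)]
      refine Integrable.mono (hexp t ht.le) ?_ ?_
      · exact (hgm.ennreal_toReal.aestronglyMeasurable).smul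
          (by fun_prop : Continuous fun u : ℝ => Real.exp (t * u)).aestronglyMeasurable
      · refine Eventually.of_forall fun u => ?_
        rw [norm_smul, norm_mul, mul_comm]
        apply mul_le_mul_of_nonneg_left _ (norm_nonneg _)
        rw [ENNReal.toReal_ofReal', Real.norm_eq_abs, Real.norm_eq_abs]
        refine le_trans ?_ (hle u)
        rw [abs_of_nonneg (le_max_right _ _)]
        exact max_le (le_abs_self _) (abs_nonneg _)
    · have hac : (μ0.withDensity fun u => ENNReal.ofReal (g u)) ≪ μ0 :=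
        withDensity_absolutelyContinuous _ _
      apply hac
      rw [hμ0, Measure.restrict_apply measurableSet_Iic]
      have : Iic (0 : ℝ) ∩ Ioi 0 = ∅ := by
        ext x
        simp
      rw [this, measure_empty]
  obtain ⟨fin1, e1, n1⟩ := main f hfm (fun u => le_rfl)
  obtain ⟨fin2, e2, n2⟩ := main (fun u => -f u) hfm.neg (fun u => by rw [abs_neg])
  set μ1 := μ0.withDensity fun u => ENNReal.ofReal (f u) with hμ1
  set μ2 := μ0.withDensity fun u => ENNReal.ofReal (-f u) with hμ2
  have f1 := sym_finite μ1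
  have f2 := sym_finite μ2
  have hpw : ∀ μ : Measure ℝ, (∀ t, |t| < c → Integrable (fun x => Real.exp (t * x)) μ) →
      ∀ n : ℕ, Integrable (fun x : ℝ => x ^ n) μ := by
    intro μ h n
    have h0 : (0 : ℝ) ∈ interior (integrableExpSet id μ) := by
      rw [mem_interior]
      exact ⟨Ioo (-c) c, fun t ht => h t (abs_lt.mpr ht), isOpen_Ioo, by simp [hc]⟩
    have := integrable_pow_of_mem_interior_integrableExpSet h0 n
    simpa using this
  have hfm1 : AEMeasurable (fun u => ENNReal.ofReal (f u)) μ0 := hfm.aemeasurable.ennreal_ofReal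
  have hfm2 : AEMeasurable (fun u => ENNReal.ofReal (-f u)) μ0 :=
    hfm.neg.aemeasurable.ennreal_ofReal
  have hE : sym μ1 = sym μ2 := by
    apply key (sym μ1) (sym μ2) c hc (sym_exp μ1 c e1) (sym_exp μ2 c e2)
    intro n
    rw [sym_pow μ1 n (hpw μ1 e1 n), sym_pow μ2 n (hpw μ2 e2 n)]
    rcases Nat.even_or_odd n with hn | hn
    · congr 1
      obtain ⟨k, hk⟩ := hn
      have hk2 : n = 2 * k := by omega
      have i1 := hpw μ1 e1 n
      have i2 := hpw μ2 e2 n
      rw [hμ1, integrable_withDensity_iff_integrable_smul₀' hfm1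
        (Eventually.of_forall fun u => ENNReal.ofReal_lt_top)] at i1
      rw [hμ2, integrable_withDensity_iff_integrable_smul₀' hfm2
        (Eventually.of_forall fun u => ENNReal.ofReal_lt_top)] at i2
      rw [hμ1, hμ2, integral_withDensity_eq_integral_toReal_smul₀ hfm1
        (Eventually.of_forall fun u => ENNReal.ofReal_lt_top),
        integral_withDensity_eq_integral_toReal_smul₀ hfm2
        (Eventually.of_forall fun u => ENNReal.ofReal_lt_top)]
      rw [← sub_eq_zero, ← integral_sub i1 i2, ← hmom k, hk2]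
      apply integral_congr_ae
      refine Eventually.of_forall fun u => ?_
      simp only [smul_eq_mul]
      rw [ENNReal.toReal_ofReal', ENNReal.toReal_ofReal', ← sub_mul, mul_comm]
      congr 1
      rcases le_total 0 (f u) with h | h
      · rw [max_eq_left h, max_eq_right (by linarith)]
        ring
      · rw [max_eq_right h, max_eq_left (by linarith)]
        ring
    · rw [hn.neg_one_pow]
      ring
  have hmu : μ1 = μ2 := sym_inj μ1 μ2 n1 n2 hE
  rw [hμ1, hμ2, withDensity_eq_iff_of_sigmaFinite hfm1 hfm2] at hmu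
  filter_upwards [hmu] with u hu
  rcases le_total 0 (f u) with h | h
  · rw [ENNReal.ofReal_of_nonpos (show -f u ≤ 0 by linarith), ENNReal.ofReal_eq_zero] at hu
    linarith
  · rw [ENNReal.ofReal_of_nonpos h, eq_comm, ENNReal.ofReal_eq_zero] at hu
    linarith

end W125.PR
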